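import Mathlib
import Pool.Agent.Q18.P.RS3

/-!
# `GL_n` over any number field: bounds at all places from logarithmic means at one real point, on one sequence of windows

Let `K` be a number field, `n` arbitrary, and `π` a unitary cuspidal automorphic representation of `GL_n` over `K`,
unramified outside the finite set `S` of finite places, with Satake parameters `α_{i,v}` and `λ(v) = ∑_i α_{i,v}`,
`v ∉ S`; `N v` is the norm of `v` (`qq v` below).  For a real number `c > 0` put

  `T_c(y) = log ∏_{p ≤ y} (1 - p^{-c})⁻¹ - ∑_{N v ≤ y, v ∉ S} |λ(v)|² (N v)^{-c}`,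

where `p` runs through the RATIONAL primes: the comparison, at the point `s = c`, of the partial Euler product of `ζ` with
the one of `L(s, π × π~)`.  (If Ramanujan and Riemann hold, `T_c(y)` is bounded for `c > 1/2` except for the term
`ord_{s=c}(L(s, π × π~) / ζ(s)) log log y`, and `T_{1/2}(y) = O(log log y)` in the mean.)

**Theorem.**  Suppose that for some `c > 0`, `0 < δ < 1`, `ρ`, `B` there are arbitrarily large `Y` with

  `∫_{Y^{1-δ}}^Y max(T_c(y) - ρ log log y, 0) dy / y ≤ B log Y`

- a bound from ONE side, in the logarithmic mean, on one arbitrarily sparse sequence of windows -.  Then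

* no local factor `L(s, π_v × π~_v)`, at ANY place of `K`, archimedean or not, ramified or not, has a real pole `> c`;
  for `v ∉ S` this says `|log_{N v} |α_{i,v}|| ≤ c / 2`;
* `L^S(s, π × π~) / ζ(s)` has no zeros and no poles with `Re s > c`;
* its order at `s = c` is at most `ρ`;
* if `ρ < 1`, then the bounds at all the places are STRICT: no local factor has a real pole `≥ c`, and
  `|log_{N v} |α_{i,v}|| < c / 2`.

The same holds with weights: let `χ_0 = 1, χ_1, ..., χ_m` be Hecke characters of finite order, unramified outside `S`,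
such that `w(v) = ∑_j χ_j(v)` satisfies `∑_j χ_j(v)^k ≥ 0` for all `k` (for the characters of an abelian extension
`L / K`: `w(v) = [L : K]` at the places which split completely and `0` at the others), `e_j` the order of the pole
of `L^S(s, π × π~ × χ_j)` at `s = 1`, and

  `T_c(y) = (∑_j e_j) log ∏_{p ≤ y} (1 - p^{-c})⁻¹ - ∑_{N v ≤ y, v ∉ S} w(v) |λ(v)|² (N v)^{-c}`.

So the places which split completely in ONE abelian extension control all places.

Relation to `OneSidedAllFields` of this problem: there the hypothesis is a POINTWISE one-sided bound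
`∑_{N v ≤ x} |λ(v)|² > π(x) - A x^c` for ALL `x` in the windows, `c ≥ 1/2`, and the conclusion is `≤ c / 2`.  Here only the
logarithmic mean of the positive part over the windows is bounded, one gets the strict inequality and the order at
`s = c`, and neither hypothesis implies the other.  Nothing is assumed of the zeros of any `L`-function.

The structures `CuspidalRepK` and `TwistK` list what is used; all of it is known for every unitary cuspidal `π` (Jacquet,
Piatetski-Shapiro, Shalika, Moeglin, Waldspurger): the local components at `v ∉ S` are unitary; the Rankin-Selberg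
series converges absolutely for `Re s > 1`; `L(s, π × π~)` is entire except for a simple pole at `s = 1`, with Euler
factors of degree `≤ n²` at `v ∈ S`, and the completed function, with `n² [K : ℚ]` factors `Γ_ℝ(s + κ_j)`, times
`s (s - 1)`, is entire; `(s - 1)^{e_j} L^S(s, π × π~ × χ_j)` is entire.

The proof: let `F(s) = ∏_j L^S(s, π × π~ × χ_j) / ζ(s)^R`, `R = ∑_j e_j`.  It has no real poles in `s > 0`, since `ζ` has no
zeros there.  The prime powers contribute to `-log F` with a sign, so the hypothesis bounds the positive part of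
`- ∑_{q^k ≤ y} d(q^k) q^{-kc}`, `d` the coefficients of `log F`.  A comparison of the Laplace transform with the
logarithmic means (where real zeros contribute with the right sign) excludes all zeros and poles to the right of `c`.
A real pole `x ≥ c` of an archimedean factor, or of an Euler factor at `S`, is a real zero of `F`, because the completed
function is entire; and for `v ∉ S` one removes the Euler factor at `v`, whose poles become zeros of the new `F`.
-/

set_option autoImplicit false

namespace Pool.Agent.Results.MP_8410ab_nt.CriticalMeans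

open NumberField IsDedekindDomain Pool.Agent.Q12.WN Pool.Agent.Q18.P
open Pool.Agent.TH861.GL3 (PL qq)

/-- a cuspidal representation is an isobaric sum with one constituent -/
theorem toIso {K : Type*} [Field K] [NumberField K] {n : ℕ} {S : Finset (HeightOneSpectrum (𝓞 K))}
    {α : PL S → Fin n → ℂ} {β : HeightOneSpectrum (𝓞 K) → Fin (n ^ 2) → ℂ}
    {κ : Fin (n ^ 2 * Module.finrank ℚ K) → ℂ} (h : CuspidalRepK S α β κ) : IsobaricRepK S 1 α β κ := by
  obtain ⟨G, Ξ, Q, h1, h2, h3, h4, h5⟩ := h.continuation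
  exact ⟨h.ne_zero, h.unitary, h.summable, G, Ξ, Q, h1, h2, h3, fun s hs => by rw [pow_one]; exact h4 s hs,
    fun s hs => by rw [pow_one]; exact h5 s hs⟩

open scoped Classical in
/-- **Cuspidal representations of `GL_n` over a number field: one-sided logarithmic means at the point `c` on one
sequence of windows bound all local components.** -/
theorem result {K : Type*} [Field K] [NumberField K] {n : ℕ} {S : Finset (HeightOneSpectrum (𝓞 K))}
    {α : PL S → Fin n → ℂ} {β : HeightOneSpectrum (𝓞 K) → Fin (n ^ 2) → ℂ}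
    {κ : Fin (n ^ 2 * Module.finrank ℚ K) → ℂ} (h : CuspidalRepK S α β κ) {c δ ρ B : ℝ} (hc : 0 < c) (hδ : 0 < δ)
    (hδ1 : δ < 1) (m : ℕ) (χ : Fin (m + 1) → PL S → ℂ) (e : Fin (m + 1) → ℕ) (hχ0 : ∀ v, χ 0 v = 1) (he0 : e 0 = 1)
    (hχ : ∀ j ≠ 0, TwistK α (χ j) (e j))
    (hw : ∀ (v : PL S) (k : ℕ), ∃ w : ℝ, 0 ≤ w ∧ ∑ j, χ j v ^ (k + 1) = (w : ℂ))
    -- the one-sided bound in the mean, on one sequence of windows
    (hY : ∀ Y₀ : ℝ, ∃ Y : ℝ, Y₀ ≤ Y ∧ ∫ y in (Y ^ (1 - δ))..Y,
      max (((∑ j, e j : ℕ) * (-∑' p : Nat.Primes, if ((p : ℕ) : ℝ) ≤ y then Real.log (1 - ((p : ℕ) : ℝ) ^ (-c)) else 0) -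
        ∑' v : PL S, if (qq v.1 : ℝ) ≤ y then (∑ j, χ j v).re * ‖∑ i, α v i‖ ^ 2 * (qq v.1 : ℝ) ^ (-c) else 0) -
          ρ * Real.log (Real.log y)) 0 / y ≤ B * Real.log Y) :
    -- the unramified places
    (∀ (v : PL S) (i : Fin n), |Real.logb (qq v.1 : ℝ) ‖α v i‖| ≤ c / 2) ∧
    -- the places in `S`
    (∀ v ∈ S, ∀ (i : Fin (n ^ 2)) (x : ℝ), β v i = ((qq v : ℕ) : ℂ) ^ (x : ℂ) → x ≤ c) ∧
    -- the archimedean places
    (∀ (j : Fin (n ^ 2 * Module.finrank ℚ K)) (x : ℝ), κ j = -(x : ℂ) → x ≤ c) ∧
    -- strict bounds if `ρ < 1`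
    (ρ < 1 → (∀ (v : PL S) (i : Fin n), |Real.logb (qq v.1 : ℝ) ‖α v i‖| < c / 2) ∧
      (∀ v ∈ S, ∀ (i : Fin (n ^ 2)) (x : ℝ), β v i = ((qq v : ℕ) : ℂ) ^ (x : ℂ) → x < c) ∧
      (∀ (j : Fin (n ^ 2 * Module.finrank ℚ K)) (x : ℝ), κ j = -(x : ℂ) → x < c)) ∧
    -- the half-plane `Re s > c`, and the order at `s = c`
    (∀ F : ℂ → ℂ, MeromorphicOn F Set.univ →
      (∀ s : ℂ, 1 < s.re → F s * riemannZeta s ^ (∑ j, e j) = Complex.exp (∑ j, logK (χ j) (tr2 α) s)) →
      (∀ s : ℂ, c < s.re → meromorphicOrderAt F s = 0) ∧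
      ∃ k : ℤ, meromorphicOrderAt F (c : ℂ) = k ∧ (k : ℝ) ≤ ρ) := by
  have hB : OneSidedMean δ ρ B (diffK α (fun v => (∑ j, χ j v).re) (∑ j, e j) c) := fun Y₀ => hY Y₀
  obtain ⟨h1, h2, h3, h4, h5⟩ := nf_crit (toIso h) hc (χ := χ) (e := e) (j₀ := 0) hχ0 (fun j => by
    by_cases hj : j = 0
    · subst hj
      exact Or.inl ⟨hχ0, he0⟩
    · exact Or.inr ⟨hj, hχ j hj⟩) hw hδ hδ1 hB
  refine ⟨fun v i => ?_, h2, h3, fun hρ => ⟨fun v i => ?_, (h4 hρ).2⟩, h5⟩
  · have := h1 v i
    linarith
  · have := (h4 hρ).1 v i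
    linarith

end Pool.Agent.Results.MP_8410ab_nt.CriticalMeans
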