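import Mathlib
import Pool.Agent.Q222.RK.NF

/-!
# `GL_n` over number fields: all places from doubly exponential one-sided bounds for smooth means on one sequence

Let `K` be a number field, `n` arbitrary, `π` a unitary cuspidal automorphic representation of `GL_n` over `K`,
unramified outside the finite set `S` of finite places, `α_{i,v}` its Satake parameters, `N v` the norm of `v`
(`qq v` below).  For `0 ≤ c < 1` and an integer `N ≥ 0` put

  `M(T) = ∑_{v ∉ S} ∑_{k ≤ N} |∑_i α_{i,v}^k|² / (k (N v)^{kc} Γ(1 + k log(N v) / T))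
          - ∑_p ∑_{k ≤ N} 1 / (k p^{kc} Γ(1 + k log p / T))`,

where `p` runs through the RATIONAL primes; both series converge absolutely for every `T > 0`.  As `T → ∞` the weights
tend to `1 / (k (N v)^{kc})`.

**Theorem.**  Let `b ≥ c` and `(N + 1) b ≥ 1`.

(1) Suppose that for every `y > b - c` there are arbitrarily large `T` with `M(T) ≥ - exp(exp(y T))`.  Then no local
factor `L(s, π_v × π~_v)`, at ANY place of `K` - archimedean or not, ramified or not - has a real pole `> b`; for `v ∉ S`
this says `|log_{N v} |α_{i,v}|| ≤ b / 2`.  And `L^S(s, π × π~)` has no real zeros `> b`.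

(2) Conversely, if `|α_{i,v}| ≤ 1` for all `v ∉ S` (Ramanujan at these places) and `L^S(s, π × π~)` has no real zeros
`> b`, then for every `y > b - c`, `M(T) ≥ - exp(exp(y T))` for ALL large `T`.

So a violation of Ramanujan at ONE place of `K`, `2 θ_v > b`, forces `M(T) ≤ - exp(exp(y T))` for some `y > b - c` and
all large `T`, for every `c ≤ b` and every `N ≥ 1/b - 1`.

The same holds with weights: let `χ_0 = 1, χ_1, ..., χ_m` be Hecke characters of finite order, unramified outside `S`,
such that `w(v, k) = ∑_j χ_j(v)^k ≥ 0` (for the characters of an abelian extension `L / K`: `[L : K]` or `0`; for `k = 1` it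
is `[L : K]` at the places which split completely and `0` at the others), `e_j` the order of the pole of
`L^S(s, π × π~ × χ_j)` at `s = 1`; `M(T)` has the weights `w(v, k)` in the first sum and the factor `∑_j e_j` in front of
the second.

Relation to the other results on this problem: `OneSidedAllFields` needs a pointwise one-sided bound for sharp sums over
`N v ≤ x` for all `x` in a window, `CriticalMeans` a logarithmic mean over a window.  Here a single value of `T` is used at
each scale, the required lower bound is doubly exponentially weak, every `c ≥ 0` is allowed (for `c = 0` there is no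
factor `(N v)^{-kc}` at all) and prime powers with `k ≤ N` give the bounds `θ_v ≤ 1 / (2 (N + 1))`, in the limit
`N → ∞` the Ramanujan conjecture.  Nothing is assumed of zeros in (1).

The structures `CuspidalRepK` and `TwistK` list what is used; all of it is known for every unitary cuspidal `π` (Jacquet,
Piatetski-Shapiro, Shalika, Moeglin, Waldspurger): the local components at `v ∉ S` are unitary; the Rankin-Selberg
series converges absolutely for `Re s > 1`; `L(s, π × π~)` is entire except for a simple pole at `s = 1`, with Euler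
factors of degree `≤ n²` at `v ∈ S`, and the completed function, with `n² [K : ℚ]` factors `Γ_ℝ(s + κ_j)`, times
`s (s - 1)`, is entire; `(s - 1)^{e_j} L^S(s, π × π~ × χ_j)` is entire.

The proof: `F(s) = ∏_j L^S(s, π × π~ × χ_j) / ζ(s)^R` has no real poles in `s > 0`.  The sum over ALL prime powers with the
weights `1 / Γ(1 + k log(N v) / T)` (Mittag-Leffler means of the coefficients of `log F`) is `O(log T)` if `F` has no real
zeros `> c`, and is asymptotic to `- m g((β - c) T)`, `g(x)` of the size `exp(exp(x))`, if `β > c` is the largest real zero,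
of order `m` (starting library `W189`, `W187`, general form `Q45.ML`).  The terms with `k > N` are positive up to
`exp(exp(z T))`, `z > 1/(N + 1) - c`.  A real pole of an archimedean factor, or of an Euler factor at `S`, is a real zero
of `F`, because the completed function is entire; and for `v ∉ S` one removes the Euler factor at `v`, which changes
`M(T)` by a bounded amount only, while its poles become zeros of the new `F`.
-/

set_option autoImplicit false

namespace Pool.Agent.Results.MP_8410ab_nt.MittagLefflerMeans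

open NumberField IsDedekindDomain Pool.Agent.Q12.WN
open Pool.Agent.TH861.GL3 (PL qq)

/-- the weight `1 / (k x^{k c} Γ(1 + k log x / T))` of the power `x ^ k` -/
noncomputable def weight (c T x : ℝ) (k : ℕ) : ℝ :=
  1 / ((k : ℝ) * x ^ ((k : ℝ) * c) * Real.Gamma (1 + (k : ℝ) * Real.log x / T))

/-- `∑_{v ∉ S} ∑_{1 ≤ k ≤ N} w(v, k) |∑_i α_{i,v}^k|² weight(v, k) - R ∑_p ∑_{1 ≤ k ≤ N} weight(p, k)` -/
noncomputable def mean {K : Type} [Field K] [NumberField K] {n : ℕ} {S : Finset (HeightOneSpectrum (𝓞 K))}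
    (α : PL S → Fin n → ℂ) (w : PL S → ℕ → ℝ) (R : ℕ) (c : ℝ) (N : ℕ) (T : ℝ) : ℝ :=
  (∑' v : PL S, ∑ k ∈ Finset.Icc 1 N, w v k * ‖∑ i, α v i ^ k‖ ^ 2 * weight c T (qq v.1 : ℝ) k) -
    R * ∑' p : Nat.Primes, ∑ k ∈ Finset.Icc 1 N, weight c T ((p : ℕ) : ℝ) k

/-- `U(s) = (s - 1)^e L^S(s, π × π~ × χ)`, continued to an entire function -/
def IsTwistL {K : Type} [Field K] [NumberField K] {n : ℕ} {S : Finset (HeightOneSpectrum (𝓞 K))}
    (α : PL S → Fin n → ℂ) (χ : PL S → ℂ) (e : ℕ) (U : ℂ → ℂ) : Prop :=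
  Differentiable ℂ U ∧ ∀ s : ℂ, 1 < s.re → U s = (s - 1) ^ e * Complex.exp (logK χ (tr2 α) s)

/-- a cuspidal representation is an isobaric sum with one constituent -/
theorem toIso {K : Type} [Field K] [NumberField K] {n : ℕ} {S : Finset (HeightOneSpectrum (𝓞 K))}
    {α : PL S → Fin n → ℂ} {β : HeightOneSpectrum (𝓞 K) → Fin (n ^ 2) → ℂ}
    {κ : Fin (n ^ 2 * Module.finrank ℚ K) → ℂ} (h : CuspidalRepK S α β κ) : IsobaricRepK S 1 α β κ := by
  obtain ⟨G, Ξ, Q, h1, h2, h3, h4, h5⟩ := h.continuation
  exact ⟨h.ne_zero, h.unitary, h.summable, G, Ξ, Q, h1, h2, h3, fun s hs => by rw [pow_one]; exact h4 s hs,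
    fun s hs => by rw [pow_one]; exact h5 s hs⟩

/-- **Cuspidal representations of `GL_n` over a number field: doubly exponential one-sided bounds for Mittag-Leffler
means, on one sequence, bound all local components.** -/
theorem result {K : Type} [Field K] [NumberField K] {n : ℕ} {S : Finset (HeightOneSpectrum (𝓞 K))}
    {α : PL S → Fin n → ℂ} {β : HeightOneSpectrum (𝓞 K) → Fin (n ^ 2) → ℂ}
    {κ : Fin (n ^ 2 * Module.finrank ℚ K) → ℂ} (h : CuspidalRepK S α β κ)
    (m : ℕ) (χ : Fin (m + 1) → PL S → ℂ) (e : Fin (m + 1) → ℕ) (hχ0 : ∀ v, χ 0 v = 1) (he0 : e 0 = 1)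
    (hχ : ∀ j ≠ 0, TwistK α (χ j) (e j))
    (hw : ∀ (v : PL S) (k : ℕ), ∃ w : ℝ, 0 ≤ w ∧ ∑ j, χ j v ^ (k + 1) = (w : ℂ))
    {c b : ℝ} (hc0 : 0 ≤ c) (hc1 : c < 1) (hcb : c ≤ b) (N : ℕ) (hN : 1 ≤ ((N : ℝ) + 1) * b) :
    -- (1) a one-sided, doubly exponential bound on one sequence
    ((∀ y : ℝ, b - c < y → ∀ T₀ : ℝ, ∃ T : ℝ, T₀ ≤ T ∧
        -Real.exp (Real.exp (y * T)) ≤ mean α (fun v k => (∑ j, χ j v ^ k).re) (∑ j, e j) c N T) →
      -- the unramified places
      (∀ (v : PL S) (i : Fin n), |Real.logb (qq v.1 : ℝ) ‖α v i‖| ≤ b / 2) ∧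
      -- the places in `S`
      (∀ v ∈ S, ∀ (i : Fin (n ^ 2)) (x : ℝ), β v i = ((qq v : ℕ) : ℂ) ^ (x : ℂ) → x ≤ b) ∧
      -- the archimedean places
      (∀ (j : Fin (n ^ 2 * Module.finrank ℚ K)) (x : ℝ), κ j = -(x : ℂ) → x ≤ b) ∧
      -- real zeros
      ∀ j U, IsTwistL α (χ j) (e j) U → ∀ x : ℝ, b < x → U (x : ℂ) ≠ 0) ∧
    -- (2) the converse
    ((∀ v i, ‖α v i‖ ≤ 1) → (∀ j U, IsTwistL α (χ j) (e j) U → ∀ x : ℝ, b < x → U (x : ℂ) ≠ 0) →
      ∀ y : ℝ, b - c < y → ∃ T₀ : ℝ, ∀ T : ℝ, T₀ ≤ T →
        -Real.exp (Real.exp (y * T)) ≤ mean α (fun v k => (∑ j, χ j v ^ k).re) (∑ j, e j) c N T) := by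
  obtain ⟨h1, h2⟩ := Pool.Agent.Q222.RK.nf (toIso h) (χ := χ) (e := e) (j₀ := 0) hχ0 (fun j => by
    by_cases hj : j = 0
    · subst hj
      exact Or.inl ⟨hχ0, he0⟩
    · exact Or.inr ⟨hj, hχ j hj⟩) hw hc0 hc1 hcb N hN
  constructor
  · intro hB
    obtain ⟨k1, k2, k3, k4⟩ := h1 fun y hy => Filter.frequently_atTop.2 fun T₀ => hB y hy T₀
    refine ⟨fun v i => ?_, k2, k3, k4⟩
    have := k1 v i
    linarith
  · intro hα hU y hy
    exact Filter.eventually_atTop.1 (h2 hα hU y hy)

end Pool.Agent.Results.MP_8410ab_nt.MittagLefflerMeans
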