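import Mathlib
import Pool.Agent.Q12.WN.NFPi

/-!
# `GL_n` over any number field: one-sided bounds for Rankin-Selberg sums and the Ramanujan conjecture at all places

Let `K` be a number field, `n` arbitrary, and `π` a unitary cuspidal automorphic representation of `GL_n` over `K`,
unramified outside the finite set `S` of finite places, with Satake parameters `α_{i,v}` and `λ(v) = ∑_i α_{i,v}`,
`v ∉ S`.  Write `N v` for the norm of `v` (`qq v` below) and `π(x)` for the number of the prime numbers `p ≤ x`.  By the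
prime number theorem for `L(s, π × π~)`,

  `∑_{N v ≤ x, v ∉ S} |λ(v)|² = π(x) + o(x / log x)`.

We show that a violation of the Ramanujan conjecture at ONE place of `K`, archimedean or not, ramified or not, makes the
difference large with a fixed sign, and this at every scale: suppose that `L(s, π_v × π~_v)` has a real pole `> c` for
some place `v`, where `c ≥ 1/2` (for `v ∉ S` this means `2 |log_{N v} |α_{i,v}|| > c` for some `i`; for tempered `π_v`
all real poles are `≤ 0`).  Then for all `δ > 0`, `A > 0` and **all** large `X` there is an `x ∈ [X^{1-δ}, X]` with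

  `∑_{N v ≤ x, v ∉ S} |λ(v)|² ≤ π(x) - A x^c`.

So if for one `δ > 0` and one sequence `X → ∞` the one-sided bound `∑_{N v ≤ x} |λ(v)|² > π(x) - A x^c` holds for all
`x ∈ [X^{1-δ}, X]`, then `π` satisfies the bound `c/2` towards the Ramanujan conjecture at ALL places of `K`.  Nothing is
assumed of the zeros of `ζ_K` or of any other `L`-function.

The same holds for sums over the places which split completely in a finite abelian extension `L / K` and, more
generally, with weights: let `χ_0 = 1, χ_1, ..., χ_m` be Hecke characters of finite order, unramified outside `S`,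
such that `w(v) = ∑_j χ_j(v)` satisfies `∑_j χ_j(v)^k ≥ 0` for all `k`, and let `e_j = 1` if `π ⊗ χ_j ≅ π` and
`e_j = 0` otherwise (`π ⊗ χ_j ≅ π ⊗ |det|^{it}` with `t ≠ 0` is excluded by the central character).  Then, for all large
`X`, some `x ∈ [X^{1-δ}, X]` has

  `∑_{N v ≤ x, v ∉ S} w(v) |λ(v)|² ≤ (∑_j e_j) π(x) - A x^c`.

(For the characters of `Gal(L / K)` the weight `w` is `[L : K]` at the places which split completely and `0` at the
others.)  If `ζ_K` has no real zeros in `(c, 1)` then also `∑_{N v ≤ x, v ∉ S} (1 - |λ(v)|²) ≥ A x^c`, so that many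
places `v` have `|λ(v)| < 1`.  All this holds as well for `c < Re ρ` if `ρ` is a zero or a pole of
`L^S(s, π × π~) / ζ(s)` (resp. of the product of the twists divided by the power of `ζ`).

Known before: for `GL_3` over `K`, `OneSidedGL3` of this problem (via the holomorphy of the adjoint `L`-function, which
is known only for `n ≤ 3`; no archimedean or ramified places); for `K = ℚ`, `MP_08cfa9_nt.OneSidedEveryScale`.  There the
comparison is with the number of the places, i.e. with `ζ_K`, and for `K ≠ ℚ`, `n > 3` this needs a hypothesis on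
its real zeros.  Here we compare with the RATIONAL primes, and `ζ` has no real zeros in `(0, 1)`.

The structures `CuspidalRepK` and `TwistK` list what is used; all of it is known for every unitary cuspidal `π` (Jacquet,
Piatetski-Shapiro, Shalika, Moeglin, Waldspurger): the local components at `v ∉ S` are unitary; the Rankin-Selberg
series converges absolutely for `Re s > 1`; `L(s, π × π~)` is entire except for a simple pole at `s = 1`, with Euler
factors of degree `≤ n²` at `v ∈ S`, and the completed function, with `n² [K : ℚ]` factors `Γ_ℝ(s + κ_j)`, times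
`s (s - 1)`, is entire; `(s - 1)^{e_j} L^S(s, π × π~ × χ_j)` is entire.

The proof: let `F(s) = ∏_j L^S(s, π × π~ × χ_j) / ζ(s)^R`, `R = ∑_j e_j`, without the Euler factor at `v` if `v ∉ S` is the
place in question.  This function has a real zero `> c`: at the poles of the archimedean factors `L(s, π × π~)`
vanishes as the completed function is entire, and a removed Euler factor contributes its poles as zeros.  It has no real
poles in `s > 0`, and the coefficients of `-log F` are at most `R`.  A localised explicit formula for the summatory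
function of these coefficients, at a real point and at a complex point, shows that it takes large positive values in
every window; the prime powers contribute `O(x^{1/2+ε})` to it from above.
-/

set_option autoImplicit false

namespace Pool.Agent.Results.MP_8410ab_nt.OneSidedAllFields

open NumberField IsDedekindDomain Pool.Agent.Q12.WN
open Pool.Agent.TH861.GL3 (PL qq)

/-- a cuspidal representation is an isobaric sum with one constituent -/
theorem toIso {K : Type*} [Field K] [NumberField K] {n : ℕ} {S : Finset (HeightOneSpectrum (𝓞 K))}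
    {α : PL S → Fin n → ℂ} {β : HeightOneSpectrum (𝓞 K) → Fin (n ^ 2) → ℂ}
    {κ : Fin (n ^ 2 * Module.finrank ℚ K) → ℂ} (h : CuspidalRepK S α β κ) : IsobaricRepK S 1 α β κ := by
  obtain ⟨G, Ξ, Q, h1, h2, h3, h4, h5⟩ := h.continuation
  exact ⟨h.ne_zero, h.unitary, h.summable, G, Ξ, Q, h1, h2, h3, fun s hs => by rw [pow_one]; exact h4 s hs,
    fun s hs => by rw [pow_one]; exact h5 s hs⟩

open scoped Classical in
/-- **Cuspidal representations of `GL_n` over a number field: the Rankin-Selberg sum at every scale, if the Ramanujan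
conjecture fails at one place.** -/
theorem result {K : Type*} [Field K] [NumberField K] {n : ℕ} {S : Finset (HeightOneSpectrum (𝓞 K))}
    {α : PL S → Fin n → ℂ} {β : HeightOneSpectrum (𝓞 K) → Fin (n ^ 2) → ℂ}
    {κ : Fin (n ^ 2 * Module.finrank ℚ K) → ℂ} (h : CuspidalRepK S α β κ) {c δ : ℝ} (hc : 1 / 2 ≤ c) (hδ : 0 < δ)
    (A : ℝ) :
    -- the sum over all places
    ((BadPlace S α β κ c ∨ ∃ (F : ℂ → ℂ) (ρ : ℂ), MeromorphicOn F Set.univ ∧
        (∀ s : ℂ, 1 < s.re → F s * riemannZeta s = Complex.exp (logK (fun _ => 1) (tr2 α) s)) ∧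
        c < ρ.re ∧ meromorphicOrderAt F ρ ≠ 0) →
      ∃ X₀ : ℝ, ∀ X : ℝ, X₀ ≤ X → ∃ x : ℝ, X ^ (1 - δ) ≤ x ∧ x ≤ X ∧
        (∑' v : PL S, if (qq v.1 : ℝ) ≤ x then ‖∑ i, α v i‖ ^ 2 else 0) + A * x ^ c ≤
          (Nat.primeCounting ⌊x⌋₊ : ℝ)) ∧
    -- weights, for instance places which split completely in an abelian extension
    (∀ (m : ℕ) (χ : Fin (m + 1) → PL S → ℂ) (e : Fin (m + 1) → ℕ), (∀ v, χ 0 v = 1) → e 0 = 1 →
      (∀ j ≠ 0, TwistK α (χ j) (e j)) →
      (∀ (v : PL S) (k : ℕ), ∃ w : ℝ, 0 ≤ w ∧ ∑ j, χ j v ^ (k + 1) = (w : ℂ)) →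
      (BadPlace S α β κ c ∨ ∃ (F : ℂ → ℂ) (ρ : ℂ), MeromorphicOn F Set.univ ∧
        (∀ s : ℂ, 1 < s.re → F s * riemannZeta s ^ (∑ j, e j) = Complex.exp (∑ j, logK (χ j) (tr2 α) s)) ∧
        c < ρ.re ∧ meromorphicOrderAt F ρ ≠ 0) →
      ∃ X₀ : ℝ, ∀ X : ℝ, X₀ ≤ X → ∃ x : ℝ, X ^ (1 - δ) ≤ x ∧ x ≤ X ∧
        (∑' v : PL S, if (qq v.1 : ℝ) ≤ x then (∑ j, χ j v).re * ‖∑ i, α v i‖ ^ 2 else 0) + A * x ^ c ≤
          (∑ j, e j : ℕ) * (Nat.primeCounting ⌊x⌋₊ : ℝ)) ∧
    -- comparison with the number of places, if `ζ_K` has no real zeros larger than `c`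
    (BadPlace S α β κ c → ZetaK S c →
      ∃ X₀ : ℝ, ∀ X : ℝ, X₀ ≤ X → ∃ x : ℝ, X ^ (1 - δ) ≤ x ∧ x ≤ X ∧
        A * x ^ c ≤ ∑' v : PL S, if (qq v.1 : ℝ) ≤ x then 1 - ‖∑ i, α v i‖ ^ 2 else 0) := by
  refine ⟨fun hv => ?_, fun m χ e h0 he hχ hw hv => ?_, fun hv hζ => ?_⟩
  · obtain ⟨X₀, hX₀⟩ := Filter.eventually_atTop.1 (nf_pi (toIso h) hc (ι := Fin 1) (χ := fun _ _ => 1)
      (e := fun _ => 1) (j₀ := 0) (fun _ => rfl) (fun j => Or.inl ⟨fun _ => rfl, rfl⟩)
      (fun v k => ⟨1, zero_le_one, by simp⟩) (by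
        rcases hv with hv | ⟨F, ρ, h1, h2, h3, h4⟩
        · exact Or.inl hv
        · refine Or.inr ⟨F, ρ, h1, fun s hs => ?_, h3, h4⟩
          rw [Fin.sum_univ_one, Fin.sum_univ_one, pow_one]
          exact h2 s hs) hδ A)
    refine ⟨X₀, fun X hX => ?_⟩
    obtain ⟨x, h1, h2, h3⟩ := hX₀ X hX
    refine ⟨x, h1, h2, ?_⟩
    simpa using h3
  · exact Filter.eventually_atTop.1 (nf_pi (toIso h) hc (χ := χ) (e := e) (j₀ := 0) h0 (fun j => by
      by_cases hj : j = 0
      · subst hj
        exact Or.inl ⟨h0, he⟩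
      · exact Or.inr ⟨hj, hχ j hj⟩) hw hv hδ A)
  · obtain ⟨X₀, hX₀⟩ := Filter.eventually_atTop.1 (nf_main h hc hζ (ι := Fin 1) (χ := fun _ _ => 1) (j₀ := 0)
      (fun _ => rfl) (fun j => Or.inl fun _ => rfl) (fun v k => ⟨1, zero_le_one, by simp⟩) (Or.inl hv) hδ A)
    refine ⟨X₀, fun X hX => ?_⟩
    obtain ⟨x, h1, h2, h3⟩ := hX₀ X hX
    refine ⟨x, h1, h2, ?_⟩
    simpa using h3

end Pool.Agent.Results.MP_8410ab_nt.OneSidedAllFields
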