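import Mathlib
import Pool.Agent.Q18.S.Places

/-!
# `GL_n` over a number field: the places at which the Ramanujan bound fails strongly are sparse

Let `K` be a number field and `π` a unitary cuspidal automorphic representation of `GL_n` over `K`, unramified outside
the finite set `S`, with Satake parameters `α_{i,v}`, `v ∉ S`; `N v` is the norm of `v` (`qq v` below) and
`θ_v = max_i |log_{N v} |α_{i,v}||`.  The conjecture says `θ_v = 0`; the best known bounds for all places are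
`θ_v ≤ 1/2 - 1/(n² + 1)` (Luo, Rudnick, Sarnak), `7/64, 5/14, 9/22` for `n = 2, 3, 4` (Kim, Sarnak; Blomer, Brumley).
Put `m = ⌊n / 2⌋`.

**Theorem 1.**  For every `n` and `0 < δ ≤ 1/2` and every `σ > m (1 - 2 δ)`

  `∑_{v ∉ S, θ_v ≥ δ} (N v)^{-σ} < ∞`,   `#{v ∉ S : N v ≤ x, θ_v ≥ δ} ≤ C x^σ`.

So all places outside a set which is sparse (its counting function is `O(x^{1 - 2 m ε'})` for every `ε' < ε`) satisfy
`θ_v < 1/2 - 1/(2m) + ε`: for almost all places this is a bound better than that of Luo, Rudnick and Sarnak, e.g. `1/4`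
for `n = 4, 5`, `1/3` for `n = 6, 7`.

**Theorem 2.**  Let `n = 4`.  Then for every `0 < δ ≤ 1/2` and `σ > 1 - 2 δ`

  `∑_{v ∉ S, θ_v ≥ δ} (N v)^{-σ} < ∞`,   `#{v ∉ S : N v ≤ x, θ_v ≥ δ} ≤ C x^σ`.

In particular, for EVERY `δ > 0` the set of places with `θ_v ≥ δ` has density `0`.  Moreover, if `r` is the order of the
pole at `s = 1` of the Rankin-Selberg `L`-function of the exterior square `Λ²π` (`r = 1` if `Λ²π` is cuspidal), then

  `∑_{v ∉ S} (X_v + 1 / X_v - 2)² (N v)^{-s} ≤ (1 + r) log (1 / (s - 1)) + C`,   `1 < s ≤ 2`,  `X_v = (N v)^{θ_v}`: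

the mean square of `X_v + 1 / X_v - 2` over the places is at most `1 + r`, and the places with `max_i |α_{i,v}| ≥ X` have
upper (Dirichlet) density at most `(1 + r) / (X + 1 / X - 2)²`.  (`|α_{i,v}| ≥ X` for one `i` is the same as
`|α_{i,v}| ≤ 1 / X` for one `i`.)

What is used of `π` is known for every unitary cuspidal `π`: `π_v`, `v ∉ S`, is unitary; the Rankin-Selberg Euler
product converges absolutely for `Re s > 1` and has a simple pole at `s = 1` (Jacquet, Piatetski-Shapiro, Shalika); for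
`n = 4` the exterior square is an isobaric automorphic representation of `GL_6` (Kim; Henniart), a sum of unitary
cuspidal representations, so that its Rankin-Selberg product converges for `Re s > 1` and has a pole of some order `r`.

The proofs.  At most `m` of the `α_{i,v}` have absolute value `> 1`, and by the compactness of
`{z ∈ ℂ^j : |z_i| ≤ 1, max |z_i| = 1}` one of the first `j ≤ m` power sums of these is `≥ c X_v^k`; so
`|tr A_v^k| ≥ c X_v^k / 2` for one `k ≤ m` if `X_v` is large.  For `n = 4` let `α, 1 / \bar α` be two of the parameters,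
`|α| = X > 1`, and `p, q` the others; then `|pq| = 1`, `p + q = w b` with `w² = pq`, `b` real, and
`tr A = u (X + 1/X) + w b`, `tr Λ²A = u² + w² + u w (X + 1/X) b`; one of the two is at least `X + 1/X - 2`.
-/

set_option autoImplicit false

namespace Pool.Agent.Results.MP_8410ab_nt.SparseExceptionalPlaces

open NumberField IsDedekindDomain Pool.Agent.Q18.S
open Pool.Agent.TH861.GL3 (PL qq)

/-- **The exceptional places of a cuspidal representation of `GL_n` over a number field are sparse.** -/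
theorem result {K : Type*} [Field K] [NumberField K] {S : Finset (HeightOneSpectrum (𝓞 K))} :
    -- all `n`
    (∀ (n : ℕ) (α : PL S → Fin n → ℂ), UnitarySatake α → RankinSelberg (fun v k => ∑ i, α v i ^ k) 1 →
      ∀ δ σ : ℝ, 0 < δ → δ ≤ 1 / 2 → (n / 2 : ℕ) * (1 - 2 * δ) < σ →
        (Summable fun v : {v : PL S // ∃ i, (qq v.1 : ℝ) ^ δ ≤ ‖α v i‖} => (qq v.1.1 : ℝ) ^ (-σ)) ∧
        ∃ C : ℝ, ∀ x : ℝ, 0 < x →
          (({v : PL S | (qq v.1 : ℝ) ≤ x ∧ ∃ i, (qq v.1 : ℝ) ^ δ ≤ ‖α v i‖}.ncard : ℕ) : ℝ) ≤ C * x ^ σ) ∧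
    -- `n = 4`
    ∀ (α : PL S → Fin 4 → ℂ) (r : ℕ), UnitarySatake α → RankinSelberg (fun v k => ∑ i, α v i ^ k) 1 →
      RankinSelberg (fun v k => ext2 (α v) k) r →
      (∀ δ σ : ℝ, 0 < δ → δ ≤ 1 / 2 → 1 - 2 * δ < σ →
        (Summable fun v : {v : PL S // ∃ i, (qq v.1 : ℝ) ^ δ ≤ ‖α v i‖} => (qq v.1.1 : ℝ) ^ (-σ)) ∧
        ∃ C : ℝ, ∀ x : ℝ, 0 < x →
          (({v : PL S | (qq v.1 : ℝ) ≤ x ∧ ∃ i, (qq v.1 : ℝ) ^ δ ≤ ‖α v i‖}.ncard : ℕ) : ℝ) ≤ C * x ^ σ) ∧
      (∃ C : ℝ, ∀ s : ℝ, 1 < s → s ≤ 2 → ∀ i : PL S → Fin 4,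
        (Summable fun v : PL S => (‖α v (i v)‖ + ‖α v (i v)‖⁻¹ - 2) ^ 2 * (qq v.1 : ℝ) ^ (-s)) ∧
        ∑' v : PL S, (‖α v (i v)‖ + ‖α v (i v)‖⁻¹ - 2) ^ 2 * (qq v.1 : ℝ) ^ (-s) ≤
          (1 + r) * Real.log (1 / (s - 1)) + C) ∧
      ∀ X : ℝ, 1 < X → ∃ C : ℝ, ∀ s : ℝ, 1 < s → s ≤ 2 →
        ∑' v : {v : PL S // ∃ i, X ≤ ‖α v i‖}, (qq v.1.1 : ℝ) ^ (-s) ≤
          (1 + r) / (X + X⁻¹ - 2) ^ 2 * Real.log (1 / (s - 1)) + C := by
  refine ⟨fun n α h h1 δ σ hδ hδ2 hσ => sparse_places h h1 hδ hδ2 hσ, fun α r h h1 h2 =>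
    ⟨fun δ σ hδ hδ2 hσ => four_places h h1 h2 hδ hδ2 hσ, ?_, fun X hX => ?_⟩⟩
  · simpa using four_mean h h1 h2
  · simpa using four_dens h h1 h2 hX

end Pool.Agent.Results.MP_8410ab_nt.SparseExceptionalPlaces
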